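import Pool.Agent.TH766.MC.Irr

/-!
# Klt pairs on generically finite covers of projective space over an arrangement

Let `ℓ i = 0` be `q` hyperplanes in projective `n`-space, an arbitrary arrangement which is not
reducible (general position is not assumed), let `X` be a normal projective variety of dimension `n`
with a generically finite rational map to projective space, and let `Δ ≥ 0` be an `ℝ`-divisor on `X`,
for instance the boundary of a klt pair. At a prime divisor `P` of `X` whose image lies in the
arrangement let `m P` be the largest multiplicity of one of the hyperplanes, and let `δ P` be the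
coefficient of `Δ`. If

  `δ P ≥ 1 - m P / s`

for all these `P`, where `s` is any real number greater than `n + 2`, then `K_X + Δ` is big. If there
are at least `n + 3` different hyperplanes, it is sufficient that `s > n + 1`. So if `(X, Δ)` is klt
and `K_X + Δ` is nef then `K_X + Δ` is semiample by the base point free theorem (Kawamata, Shokurov;
not part of the Lean). The numbers do not depend on the number `q` of hyperplanes; Fermat
hypersurfaces of degree `n + 2` (covers of `n + 2` hyperplanes in general position) show that `n + 2`
cannot be lowered in general.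

The function-field language of the starting repository is used. `K` is the function field of `X`,
the coordinates `x 0, ..., x n` of the map are elements of `K` whose ratios are a transcendence basis;
the prime divisors of `X` are places `P` of `K` (`Place`, `Divisorial`), `P.ord` is the order along
`P`, and `X` is given by the set of its prime divisors. The boundary `Δ` is given by its
coefficients `δ P`. A section of `N (K_X + Δ)` is an `N`-canonical form `ω` (`IsPluri`), a function of
`n` rational vector fields, whose value on vector fields that are regular at `P` has order at least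
`- N δ P`, for all prime divisors `P` of `X`.

Proof. By a theorem on the bases of irreducible arrangements (`Pool.Agent.TH152.AC`, helper152, and
`Pool.Agent.TH766.MC.Ex2` for `n + 3` hyperplanes), the base polytope contains a point `c`,
`∑ c i = n + 1`, such that the `n`-form with the denominator `∏ (ℓ i) ^ (c i)` has at `P` order at
least `m P / r - 1`, with `r = n + 2` or `r = n + 1`, hence at least `- δ P + m P (1 / r - 1 / s)`; so
high powers can be multiplied by quotients of the forms `ℓ i`.
-/

set_option autoImplicit false

open FF Pool.Agent.W602.Cov Pool.Agent.W602.GT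

namespace Pool.Agent.Results.MP_e23cd6_ag.BigArrangementPairs

/-- The value of a linear form at a vector over `K`. -/
noncomputable def form {n : ℕ} {K : Type} [Field K] [Algebra ℂ K] (φ : Form n)
    (x : Fin (n + 1) → K) : K := ∑ j, algebraMap ℂ K (φ (Pi.single j 1)) * x j

/-- `ω` is a section of `N (K_X + Δ)`, where `X` is given by the set of its prime divisors, and `Δ` has
the coefficient `δ P` at `P`: an `N`-canonical form whose values on vector fields which are
regular at `P` have order at least `- N δ P`, for all prime divisors `P` of `X`. -/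
def IsSection {K : Type} [Field K] [Algebra ℂ K] (n : ℕ) (X : Set (Place ℂ K))
    (δ : Place ℂ K → ℝ) (N : ℕ) (ω : (Fin n → Derivation ℂ K K) → K) : Prop :=
  IsPluri N ω ∧ ∀ P ∈ X, Divisorial n P → ∀ D : Fin n → Derivation ℂ K K,
    (∀ i, DerReg P (D i)) → ω D = 0 ∨ -(N * δ P) ≤ (P.ord (ω D) : ℝ)

/-- The condition on the multiplicities: at every prime divisor `P` of `X` the hyperplane `i` has the
order `a + v i`, where the minimum of the orders of all linear forms is `a`; if some `v i` is not
`0`, that is, if the image of `P` lies in one of the hyperplanes, then the largest `v i` is at least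
`s (1 - δ P)`. -/
def Multiplicities {n q : ℕ} (ℓ : Fin q → Form n) {K : Type} [Field K] [Algebra ℂ K]
    (x : Fin (n + 1) → K) (X : Set (Place ℂ K)) (δ : Place ℂ K → ℝ) (s : ℝ) : Prop :=
  ∀ P ∈ X, Divisorial n P → ∀ (a : ℤ) (v : Fin q → ℕ),
    (∀ φ : Form n, form φ x = 0 ∨ a ≤ P.ord (form φ x)) →
    (∃ φ : Form n, form φ x ≠ 0 ∧ P.ord (form φ x) = a) →
    (∀ i, P.ord (form (ℓ i) x) = a + v i) → v ≠ 0 → ∃ i, s * (1 - δ P) ≤ v i

/-- `K_X + Δ` is big: some positive multiple has sections with `n` algebraically independent ratios,
where `n` is the dimension of `X`. -/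
def IsBig {K : Type} [Field K] [Algebra ℂ K] (n : ℕ) (X : Set (Place ℂ K))
    (δ : Place ℂ K → ℝ) : Prop :=
  ∃ N : ℕ, 0 < N ∧ ∃ ω : Fin (n + 1) → (Fin n → Derivation ℂ K K) → K,
    (∀ j, IsSection n X δ N (ω j)) ∧
    ∃ D, ω 0 D ≠ 0 ∧ AlgebraicIndependent ℂ (fun i : Fin n => ω i.succ D / ω 0 D)

/-- There are `n + 3` different hyperplanes. -/
def ManyHyperplanes {n q : ℕ} (ℓ : Fin q → Form n) : Prop :=
  ∃ s : Fin (n + 3) → Fin q, ∀ i j, i ≠ j → ∀ t : ℂ, ℓ (s i) ≠ t • ℓ (s j)

/-- **Bigness.** Let `X` be a variety of dimension `n ≥ 1` with function field `K` and a generically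
finite rational map `[x 0 : ... : x n]` to projective space, let `ℓ i = 0` be an arbitrary
arrangement which is not reducible, and let `Δ ≥ 0` be a real divisor on `X` with coefficients
`δ P ≥ 1 - (max v i) / s` at the prime divisors `P` of `X` over the arrangement, where `s > n + 2`, or
`s > n + 1` if there are `n + 3` different hyperplanes. Then `K_X + Δ` is big. -/
theorem result (n q : ℕ) (hn : 1 ≤ n) (ℓ : Fin q → Form n) (hℓ : ∀ i, ℓ i ≠ 0)
    (hr : ¬ Reducible ℓ) (K : Type) [Field K] [Algebra ℂ K] (x : Fin (n + 1) → K) (hx : x 0 ≠ 0)
    (hbas : IsTranscendenceBasis ℂ (fun j : Fin n => x j.succ / x 0)) (X : Set (Place ℂ K))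
    (δ : Place ℂ K → ℝ) (hδ : ∀ P ∈ X, 0 ≤ δ P) (s : ℝ)
    (hs : (n : ℝ) + 2 < s ∨ (ManyHyperplanes ℓ ∧ (n : ℝ) + 1 < s))
    (h : Multiplicities ℓ x X δ s) : IsBig n X δ :=
  Pool.Agent.TH766.MC.big_irr hn hℓ hr hx hbas X δ hδ hs h

end Pool.Agent.Results.MP_e23cd6_ag.BigArrangementPairs
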